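import Pool.Agent.Helper94_DMI.Defs

/-!
Squad DMI: the module statements. Plan: /team-store/PLAN_DMI.md
-/

set_option autoImplicit false

namespace Pool.Agent.DMI

open Set Topology TopologicalSpace Filter

/-! ### A. General dimension theory -/

/-- Z0B -/
def Z0BStmt : Prop :=
  ∀ (X : Type) [TopologicalSpace X] [SecondCountableTopology X], ClB X → Z0 X

/-- SUM: countable closed sum theorem for dimension 0 -/
def SumStmt : Prop :=
  ∀ (X : Type) [TopologicalSpace X] [NormalSpace X] (Fs : ℕ → Set X),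
    (∀ i, IsClosed (Fs i)) → (⋃ i, Fs i) = Set.univ → (∀ i, Z0 (Fs i)) → Z0 X

/-- TWO: union of two zero-dimensional sets -/
def TwoStmt : Prop :=
  ∀ (X : Type) [TopologicalSpace X] [CompletelyNormalSpace X] (Z1 Z2 : Set X),
    Z1 ∪ Z2 = Set.univ → Z0 Z1 → Z0 Z2 → Cov1 X

/-- SEP: partitions avoiding a zero-dimensional set -/
def SepStmt : Prop :=
  ∀ (X : Type) [TopologicalSpace X] [CompletelyNormalSpace X] [SecondCountableTopology X]
    (Y : Set X),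
    (∀ x, x ∉ Y → ∀ U : Set X, IsOpen U → x ∈ U →
      ∃ W : Set X, IsOpen W ∧ x ∈ W ∧ W ⊆ U ∧ frontier W ⊆ Y) →
    ∀ K L : Set X, IsClosed K → IsClosed L → Disjoint K L →
      ∃ W : Set X, IsOpen W ∧ K ⊆ W ∧ Disjoint (closure W) L ∧ frontier W ⊆ Y

/-- DFOUR: the criterion for covering dimension at most 1 -/
def DFourStmt : Prop :=
  ∀ (X : Type) [TopologicalSpace X] [T3Space X] [SecondCountableTopology X] (Fs : ℕ → Set X),
    (∀ i, IsClosed (Fs i)) → (∀ i, ClB (Fs i)) →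
    (∀ x, x ∉ (⋃ i, Fs i) → ∀ U : Set X, IsOpen U → x ∈ U →
      ∃ W : Set X, IsOpen W ∧ x ∈ W ∧ W ⊆ U ∧ frontier W ⊆ ⋃ i, Fs i) →
    Cov1 X

/-! ### B. The doubling -/

/-- DT3 -/
def DT3Stmt : Prop := ∀ (X : Type) [TopologicalSpace X] [T3Space X], T3Space (Dbl X)

/-- DM1 -/
def DM1Stmt : Prop := ∀ (X : Type) [TopologicalSpace X] [T3Space X], QB X → M1 (Dbl X)

/-- DCOV -/
def DCovStmt : Prop := ∀ (X : Type) [TopologicalSpace X], Cov1 X → Cov1 (Dbl X)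

/-- DIND -/
def DIndStmt : Prop :=
  ∀ (X : Type) [TopologicalSpace X], P2 (Set.univ : Set (Dbl X)) → P2 (Set.univ : Set X)

/-! ### C. The functions -/

/-- TAIL: facts on tails of the norm -/
def TailStmt : Prop :=
  (∀ z : Z, ∀ k, 0 ≤ tl z k) ∧ (∀ z : Z, ∀ k k', k ≤ k' → tl z k' ≤ tl z k) ∧
  (∀ z : Z, tl z 0 = nrm z) ∧ (∀ z : Z, Tendsto (tl z) atTop (𝓝 0))

/-- FSUM: the series defining `f` is summable, nonnegative and dominated by the norm -/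
def FSumStmt : Prop :=
  ∀ (D : Dat) (a : A) (y : M), Summable (ft D a y) ∧ (∀ i, 0 ≤ ft D a y i) ∧
    (∀ i, ft D a y i ≤ wt y.2.2.1 i)

/-- UKEY: the universal stratification -/
def UKeyStmt : Prop :=
  ∀ (D : Dat) (a : A) (ε : ℝ), 0 < ε → ∃ n0 : ℕ, 0 < n0 ∧ ∀ n k : ℕ, n0 ≤ n → n ≤ k →
    ∀ y y' : M, tl y.2.2 k ≤ 1 / (n : ℝ) → |y'.1 - y.1| ≤ (1 / 2 : ℝ) ^ k / n →
      agr k y'.2.1 y.2.1 → agr k y'.2.2.1 y.2.2.1 → f D a y - ε ≤ f D a y'

/-- LCONT -/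
def LContStmt : Prop :=
  (∀ D : Dat, Continuous D.l) ∧ ∀ (D : Dat) (a : A), IsClosed (Gr D a)

/-- LSC -/
def LscStmt : Prop := ∀ (D : Dat) (a : A), LowerSemicontinuous (f D a)

/-- CONT -/
def ContStmt : Prop := ∀ (D : Dat) (a : A) (y : M), y ∉ Gr D a → ContinuousAt (f D a) y

/-- GRV -/
def GrvStmt : Prop :=
  ∀ (D : Dat) (a : A) (z : Z), (∀ i, z.1 i = true → i ∈ D.J) →
    f D a (D.l z.1, a, z) = nrm z

/-! ### D. The topologies -/

/-- TT3 -/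
def TT3Stmt : Prop := ∀ (dat : A → Option Dat) (S : Set A), T3Space (MT dat S)

/-- TSC -/
def TSCStmt : Prop :=
  ∀ (dat : A → Option Dat) (S : Set A), S.Countable → SecondCountableTopology (MT dat S)

/-- TOP: ground open sets are open, the functions are continuous, and basic neighbourhoods -/
def TopStmt : Prop :=
  (∀ (dat : A → Option Dat) (S : Set A) (U : Set M), IsOpen U →
    @IsOpen (MT dat S) inferInstance U) ∧
  (∀ (dat : A → Option Dat) (S : Set A) (a : A), a ∈ S →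
    @Continuous (MT dat S) ℝ inferInstance inferInstance (F dat a)) ∧
  (∀ (dat : A → Option Dat) (S : Set A) (U : Set M), @IsOpen (MT dat S) inferInstance U →
    ∀ x ∈ U, ∃ (B : Set M) (s : Finset A) (ε : ℝ), IsOpen B ∧ x ∈ B ∧ (∀ a ∈ s, a ∈ S) ∧ 0 < ε ∧
      ∀ y ∈ B, (∀ a ∈ s, |F dat a y - F dat a x| < ε) → y ∈ U)

/-- NB: at `x` only the function with index `x.2.1` matters, and only if `x` is on its graph;
it matters only from above. -/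
def NBStmt : Prop :=
  ∀ (dat : A → Option Dat) (S : Set A) (U : Set M), @IsOpen (MT dat S) inferInstance U →
    ∀ x ∈ U, ∃ B : Set M, IsOpen B ∧ x ∈ B ∧
      (B ⊆ U ∨ (x.2.1 ∈ S ∧ ∃ D, dat x.2.1 = some D ∧ x ∈ Gr D x.2.1 ∧
        ∃ c, f D x.2.1 x < c ∧ ∀ y ∈ B, f D x.2.1 y < c → y ∈ U))

/-! ### E. Network -/

/-- NET: one countable network for all choices of data -/
def NetStmt : Prop :=
  ∃ E : ℕ → Set M, ∀ (dat : A → Option Dat) (U : Set M),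
    @IsOpen (MM dat) inferInstance U → ∀ x ∈ U, ∃ i, x ∈ E i ∧ E i ⊆ U

/-- HL: open sets depend on countably many functions -/
def HLStmt : Prop :=
  ∀ (dat : A → Option Dat) (U : Set M), @IsOpen (MM dat) inferInstance U →
    ∃ S : Set A, S.Countable ∧ @IsOpen (MT dat S) inferInstance U

/-! ### F. Quasi-base -/

/-- PTF: for every `n` there is a family of boxes, point finite, ground open, such that every point
lies in a box of the family which is a box as in UKEY for `n`. -/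
def PtfStmt : Prop :=
  ∀ n : ℕ, 0 < n → ∃ G : Set (Set M), (∀ B ∈ G, IsOpen B) ∧
    (∀ y : M, {B | B ∈ G ∧ y ∈ B}.Finite) ∧
    ∀ y : M, ∃ B ∈ G, y ∈ B ∧ ∃ k, n ≤ k ∧ tl y.2.2 k ≤ 1 / (n : ℝ) ∧
      ∀ y' ∈ B, |y'.1 - y.1| ≤ (1 / 2 : ℝ) ^ k / n ∧ agr k y'.2.1 y.2.1 ∧ agr k y'.2.2.1 y.2.2.1

/-- QBM -/
def QBMStmt : Prop := ∀ dat : A → Option Dat, QB (MM dat)

/-! ### G. Dimension -/

/-- NULL: a countable dense set of reals missing countably many ranges -/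
def NullStmt : Prop :=
  ∀ Ds : ℕ → Dat, ∃ Q : Set ℝ, Q.Countable ∧ Dense Q ∧
    ∀ q ∈ Q, ∀ (n : ℕ) (z : ℕ → Bool), (Ds n).l z ≠ q

/-- RBOX: ground boxes with end points in `Q` -/
def RBoxStmt : Prop :=
  ∀ Q : Set ℝ, Dense Q → ∀ (x : M) (U : Set M), IsOpen U → x ∈ U → x.1 ∉ Q →
    ∃ W : Set M, IsOpen W ∧ x ∈ W ∧ W ⊆ U ∧ frontier W ⊆ {y | y.1 ∈ Q}

/-- WSET: the ground open set used at a point of the graph -/
def WSetStmt : Prop :=
  ∀ (D : Dat) (a : A) (Q : Set ℝ), Dense Q → ∀ c : ℝ, ∃ u : M → ℝ, Continuous u ∧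
    (∀ y ∈ Gr D a, u y = 0) ∧ (∀ y, y ∉ Gr D a → 0 < u y) ∧
    ∃ W : Set M, IsOpen W ∧ W ⊆ (Gr D a)ᶜ ∧ (∀ y, y ∉ Gr D a → f D a y + u y ≤ c → y ∈ W) ∧
      (∀ y ∈ closure W, y ∉ Gr D a → f D a y < c + u y) ∧
      (∀ y ∈ closure W, y ∉ W → y ∉ Gr D a → y.1 ∈ Q)

/-- DIMS -/
def DimSStmt : Prop :=
  ∀ (dat : A → Option Dat) (S : Set A), S.Countable → Cov1 (MT dat S)

/-- DIM -/
def DimStmt : Prop := ∀ dat : A → Option Dat, Cov1 (MM dat)

/-! ### H. Case 1 -/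

/-- ERD: the Erdos argument -/
def ErdStmt : Prop :=
  ∀ (dat : A → Option Dat) (a : A) (D : Dat), dat a = some D → ∀ S : Set (MM dat),
    (∀ z : Z, (∀ i, z.1 i = true → i ∈ D.J) → ((D.l z.1, a, z) : M) ∈ (S : Set M)) → ¬ P1 S

/-! ### I. Case 2 -/

/-- FUS: fusion -/
def FusStmt : Prop :=
  ∀ (E L : Z → Set ℝ), (∀ z, (E z).Nonempty) → (∀ z, E z ⊆ L z) →
    (∀ z : Z, ∀ t ∈ E z, ∀ ε : ℝ, 0 < ε → ∀ᶠ z' in 𝓝 z, ∃ t' ∈ E z', |t' - t| < ε) →
    IsClosed {p : ℝ × Z | p.1 ∈ L p.2} →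
    ∃ D : Dat, ∀ z : Z, (∀ i, z.1 i = true → i ∈ D.J) → D.l z.1 ∈ L z

/-- ARC: a subset containing an interval of a fibre without data is not zero-dimensional -/
def ArcStmt : Prop :=
  ∀ (dat : A → Option Dat) (a : A), dat a = none → ∀ (S : Set (MM dat)) (z : Z) (t1 t2 : ℝ),
    t1 < t2 → (∀ t, t1 ≤ t → t ≤ t2 → ((t, a, z) : M) ∈ (S : Set M)) → ¬ P1 S

/-- SEL -/
def SelStmt : Prop :=
  ∀ (dat : A → Option Dat) (a : A), dat a = none → ∀ U V : Set (MM dat),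
    IsOpen U → IsOpen V → Disjoint U V → (∀ y : M, y.1 ≤ 0 → y ∈ (U : Set M)) →
    (∀ y : M, 1 ≤ y.1 → y ∈ (V : Set M)) → P1 (U ∪ V)ᶜ →
    ∃ D : Dat, ∀ z : Z, (∀ i, z.1 i = true → i ∈ D.J) →
      ((D.l z.1, a, z) : M) ∉ (U : Set M) ∧ ((D.l z.1, a, z) : M) ∉ (V : Set M)

/-! ### J. Assembly -/

/-- FIN -/
def FinStmt : Prop := ∃ dat : A → Option Dat, ¬ P2 (Set.univ : Set (MM dat))

end Pool.Agent.DMI
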