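import Mathlib

/-!
Squad DMI (helper94): MP_f54fa5_gt, frozen statement S14232.
A first countable stratifiable space with dim = 1 and Ind at least 2, and an M1 space over it.
Plan with complete proofs: /team-store/PLAN_DMI.md
-/

set_option autoImplicit false

namespace Pool.Agent.DMI

open Set Topology TopologicalSpace

/-! ### General notions -/

/-- Disjoint closed sets are separated by a clopen set (Ind at most 0). -/
def Z0 (X : Type) [TopologicalSpace X] : Prop :=
  ∀ K L : Set X, IsClosed K → IsClosed L → Disjoint K L →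
    ∃ C : Set X, IsClopen C ∧ K ⊆ C ∧ Disjoint C L

/-- Clopen base (ind at most 0). -/
def ClB (X : Type) [TopologicalSpace X] : Prop :=
  ∀ (x : X) (U : Set X), IsOpen U → x ∈ U → ∃ C : Set X, IsClopen C ∧ x ∈ C ∧ C ⊆ U

/-- Covering dimension at most 1, in the form of the frozen statement. -/
def Cov1 (X : Type) [TopologicalSpace X] : Prop :=
  ∀ (k : ℕ) (U : Fin k → Set X), (∀ i, IsOpen (U i)) → (⋃ i, U i) = Set.univ →
    ∃ (m : ℕ) (V : Fin m → Set X), (∀ j, IsOpen (V j)) ∧ (⋃ j, V j) = Set.univ ∧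
      (∀ j, ∃ i, V j ⊆ U i) ∧ ∀ x : X, {j : Fin m | x ∈ V j}.ncard ≤ 1 + 1

/-- The first step of the frozen recursion: relative Ind at most 0. -/
def P1 {X : Type} [TopologicalSpace X] (S : Set X) : Prop :=
  ∀ A O : Set X, IsClosed A → IsOpen O → A ∩ S ⊆ O →
    ∃ W : Set X, IsOpen W ∧ A ∩ S ⊆ W ∩ S ∧ closure (W ∩ S) ∩ S ⊆ O ∧
      {x : X | x ∈ closure (W ∩ S) ∧ x ∈ S ∧ x ∉ W} = ∅

/-- The second step of the frozen recursion: relative Ind at most 1. -/
def P2 {X : Type} [TopologicalSpace X] (S : Set X) : Prop :=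
  ∀ A O : Set X, IsClosed A → IsOpen O → A ∩ S ⊆ O →
    ∃ W : Set X, IsOpen W ∧ A ∩ S ⊆ W ∩ S ∧ closure (W ∩ S) ∩ S ⊆ O ∧
      P1 {x : X | x ∈ closure (W ∩ S) ∧ x ∈ S ∧ x ∉ W}

/-- The M1 hypothesis of the frozen statement. -/
def M1 (X : Type) [TopologicalSpace X] : Prop :=
  ∃ B : ℕ → Set (Set X), TopologicalSpace.IsTopologicalBasis (⋃ n, B n) ∧
    ∀ n, ∀ F ⊆ B n, closure (⋃₀ F) = ⋃ U ∈ F, closure U

/-- A sigma-closure-preserving quasi-base of closed sets. -/
def QB (X : Type) [TopologicalSpace X] : Prop :=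
  ∃ Q : ℕ → Set (Set X), (∀ n, ∀ H ⊆ Q n, IsClosed (⋃₀ H)) ∧
    ∀ (x : X) (U : Set X), IsOpen U → x ∈ U → ∃ n, ∃ P ∈ Q n, x ∈ interior P ∧ P ⊆ U

/-! ### The doubling -/

/-- `X` together with countably many isolated copies of every point. -/
def Dbl (X : Type) : Type := X ⊕ (X × ℕ)

/-- `W` is open iff every `inl x` in `W` has a neighbourhood `U` of `x` and an `i0` with
`inl x'` and `inr (x', i)` in `W` for all `x'` in `U` and `i ≥ i0`. -/
instance (X : Type) [TopologicalSpace X] : TopologicalSpace (Dbl X) where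
  IsOpen W := ∀ x : X, (Sum.inl x : X ⊕ (X × ℕ)) ∈ W → ∃ U : Set X, IsOpen U ∧ x ∈ U ∧
    ∃ i0 : ℕ, ∀ x' ∈ U, (Sum.inl x' : X ⊕ (X × ℕ)) ∈ W ∧
      ∀ i, i0 ≤ i → (Sum.inr (x', i) : X ⊕ (X × ℕ)) ∈ W
  isOpen_univ := by
    intro x _
    exact ⟨Set.univ, isOpen_univ, Set.mem_univ _, 0, fun _ _ => ⟨Set.mem_univ _, fun _ _ => Set.mem_univ _⟩⟩
  isOpen_inter := by
    intro W W' h h' x hx
    obtain ⟨U, hU, hxU, i0, hi⟩ := h x hx.1
    obtain ⟨U', hU', hxU', i0', hi'⟩ := h' x hx.2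
    refine ⟨U ∩ U', hU.inter hU', ⟨hxU, hxU'⟩, max i0 i0', fun x' hx' => ⟨⟨(hi x' hx'.1).1, (hi' x' hx'.2).1⟩, ?_⟩⟩
    intro i hii
    exact ⟨(hi x' hx'.1).2 i (le_trans (le_max_left _ _) hii), (hi' x' hx'.2).2 i (le_trans (le_max_right _ _) hii)⟩
  isOpen_sUnion := by
    intro s hs x hx
    obtain ⟨W, hW, hxW⟩ := hx
    obtain ⟨U, hU, hxU, i0, hi⟩ := hs W hW x hxW
    exact ⟨U, hU, hxU, i0, fun x' hx' => ⟨⟨W, hW, (hi x' hx').1⟩, fun i hii => ⟨W, hW, (hi x' hx').2 i hii⟩⟩⟩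

/-! ### The ground space -/

/-- weights: `w i = 2^-(m+1)` for `i` in the class `m = i.unpair.1` -/
noncomputable def w (i : ℕ) : ℝ := (1 / 2 : ℝ) ^ (i.unpair.1 + 1)

/-- the terms of the norm -/
noncomputable def wt (z : ℕ → Bool) (i : ℕ) : ℝ := if z i = true then w i else 0

/-- sequences of finite norm, with the topology of pointwise convergence -/
abbrev Z : Type := {z : ℕ → Bool // Summable (wt z)}

/-- index space -/
abbrev A : Type := ℕ → Bool

/-- ground space with the product topology -/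
abbrev M : Type := ℝ × A × Z

noncomputable def nrm (z : Z) : ℝ := ∑' i, wt z.1 i

/-- partial sums -/
noncomputable def ps (z : ℕ → Bool) (k : ℕ) : ℝ := ∑ i ∈ Finset.range k, wt z i

/-- the norm of the part of `z` in `[k, ∞)` -/
noncomputable def tl (z : Z) (k : ℕ) : ℝ := nrm z - ps z.1 k

/-- agreement below `k` -/
def agr (k : ℕ) (a b : ℕ → Bool) : Prop := ∀ i, i < k → a i = b i

noncomputable def eta (j : ℕ) : ℝ := (1 / 8 : ℝ) ^ (j + 1)

/-- data attached to an index -/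
structure Dat where
  J : Set ℕ
  full : ∀ m N : ℕ, ∃ i ∈ J, N ≤ i ∧ i.unpair.1 = m
  l : (ℕ → Bool) → ℝ
  mod : ∀ j ∈ J, ∀ z z' : ℕ → Bool, (∀ i ∈ J, i ≤ j → z i = z' i) → |l z - l z'| ≤ eta j

/-- cut-off function: 1 on `s ≤ 1`, `2 - s` on `[1,2]`, 0 for `s ≥ 2` -/
noncomputable def lam (s : ℝ) : ℝ := max 0 (min 1 (2 - s))

open Classical in
/-- the terms of `f` -/
noncomputable def ft (D : Dat) (a : A) (y : M) (i : ℕ) : ℝ :=
  if i ∈ D.J ∧ y.2.2.1 i = true ∧ agr i y.2.1 a then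
    w i * lam ((2 : ℝ) ^ i * |y.1 - D.l y.2.2.1|) else 0

/-- the function attached to `D` and `a` -/
noncomputable def f (D : Dat) (a : A) (y : M) : ℝ := ∑' i, ft D a y i

/-- the graph -/
def Gr (D : Dat) (a : A) : Set M := {y | y.2.1 = a ∧ y.1 = D.l y.2.2.1}

/-- the family of functions -/
noncomputable def F (dat : A → Option Dat) (a : A) (y : M) : ℝ :=
  match dat a with
  | none => 0
  | some D => f D a y

/-- the embedding defining the topology of level `S` -/
noncomputable def emb (dat : A → Option Dat) (S : Set A) (y : M) : M × (S → ℝ) :=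
  (y, fun a => F dat a.1 y)

/-- the set `M` with the topology generated by the ground topology and `F dat a`, `a` in `S` -/
def MT (_dat : A → Option Dat) (_S : Set A) : Type := M

noncomputable instance (dat : A → Option Dat) (S : Set A) : TopologicalSpace (MT dat S) :=
  TopologicalSpace.induced (emb dat S) inferInstance

/-- the final space: all functions -/
abbrev MM (dat : A → Option Dat) : Type := MT dat Set.univ

end Pool.Agent.DMI
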