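import Pool.Agent.Helper94_DMI.Stmts

/-!
Squad DMI: assembly of the main theorem from the module statements.
-/

set_option autoImplicit false
namespace Pool.Agent.DMI
open Set Topology TopologicalSpace Filter

/-- monotonicity of the topologies -/
theorem isOpen_mono (dat : A → Option Dat) {S S' : Set A} (h : S ⊆ S') {U : Set M}
    (hU : @IsOpen (MT dat S) inferInstance U) : @IsOpen (MT dat S') inferInstance U := by
  obtain ⟨V, hV, rfl⟩ := hU
  refine ⟨(fun p : M × (S' → ℝ) => (p.1, fun a : S => p.2 ⟨a.1, h a.2⟩)) ⁻¹' V, hV.preimage ?_, rfl⟩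
  fun_prop

theorem dim_of (hS : DimSStmt) (hHL : HLStmt) : DimStmt := by
  intro dat k U hU hcov
  choose S hSc hSo using fun i => hHL dat (U i) (hU i)
  have hSc' : (⋃ i, S i).Countable := Set.countable_iUnion hSc
  obtain ⟨m, V, hV, hVc, hVU, hVn⟩ := hS dat (⋃ i, S i) hSc' k U
    (fun i => isOpen_mono dat (Set.subset_iUnion S i) (hSo i)) hcov
  exact ⟨m, V, fun j => isOpen_mono dat (Set.subset_univ _) (hV j), hVc, hVU, hVn⟩

open Classical in
theorem fin_of (hNet : NetStmt) (hErd : ErdStmt) (hSel : SelStmt) (hTop : TopStmt) : FinStmt := by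
  obtain ⟨E, hE⟩ := hNet
  -- enumeration of pairs
  let Us : A → Set M := fun a => ⋃ i ∈ {i | a (2 * i) = true}, E i
  let Vs : A → Set M := fun a => ⋃ i ∈ {i | a (2 * i + 1) = true}, E i
  let good : A → Dat → Prop := fun a D =>
    ∀ z : Z, (∀ i, z.1 i = true → i ∈ D.J) → ((D.l z.1, a, z) : M) ∉ Us a ∧ ((D.l z.1, a, z) : M) ∉ Vs a
  let dat : A → Option Dat := fun a => if h : ∃ D, good a D then some h.choose else none
  refine ⟨dat, fun hP => ?_⟩
  -- closed and open set
  obtain ⟨hT1, hT2, hT3⟩ := hTop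
  have hAcl : @IsClosed (MM dat) inferInstance {y : M | y.1 ≤ 0} := by
    have : @IsOpen (MM dat) inferInstance {y : M | 0 < y.1} :=
      hT1 dat Set.univ _ (isOpen_lt continuous_const continuous_fst)
    have h2 := this.isClosed_compl
    convert h2 using 1
    ext y
    exact (not_lt (a := (0 : ℝ)) (b := (y : M).1)).symm
  have hOop : @IsOpen (MM dat) inferInstance {y : M | y.1 < 1} :=
    hT1 dat Set.univ _ (isOpen_lt continuous_fst continuous_const)
  obtain ⟨W, hW, hAW, hWO, hP1⟩ := hP {y : M | y.1 ≤ 0} {y : M | y.1 < 1} hAcl hOop (by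
    intro y hy
    have : y.1 ≤ 0 := hy.1
    exact lt_of_le_of_lt this one_pos)
  simp only [Set.inter_univ] at hAW hWO hP1
  have hS : {x : MM dat | x ∈ closure W ∧ x ∈ Set.univ ∧ x ∉ W} = (W ∪ (closure W)ᶜ)ᶜ := by
    ext x; simp only [Set.mem_setOf_eq, Set.mem_univ, true_and, Set.mem_compl_iff, Set.mem_union]; tauto
  rw [hS] at hP1
  have hVo : IsOpen (closure W)ᶜ := isClosed_closure.isOpen_compl
  have hdis : Disjoint W (closure W)ᶜ := by
    rw [Set.disjoint_left]; intro x hx hx'; exact hx' (subset_closure hx)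
  -- code the pair
  obtain ⟨V0, hV0⟩ : ∃ V0 : Set M, V0 = (@closure (MM dat) inferInstance W)ᶜ := ⟨_, rfl⟩
  let a : A := fun i => if i % 2 = 0 then decide (E (i / 2) ⊆ W) else decide (E (i / 2) ⊆ V0)
  have ha0 : ∀ i, a (2 * i) = decide (E i ⊆ W) := by
    intro i
    have h1 : (2 * i) % 2 = 0 := by omega
    have h2 : (2 * i) / 2 = i := by omega
    simp only [a, h1, h2, if_true]
  have ha1 : ∀ i, a (2 * i + 1) = decide (E i ⊆ V0) := by
    intro i
    have h1 : ¬ (2 * i + 1) % 2 = 0 := by omega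
    have h2 : (2 * i + 1) / 2 = i := by omega
    simp only [a, h1, h2, if_false]
  have hUs : Us a = W := by
    apply Set.Subset.antisymm
    · apply Set.iUnion₂_subset
      intro i hi
      have : a (2 * i) = true := hi
      rw [ha0] at this
      exact of_decide_eq_true this
    · intro x hx
      obtain ⟨i, hxi, hiW⟩ := hE dat W hW x hx
      refine Set.mem_iUnion₂.2 ⟨i, ?_, hxi⟩
      show a (2 * i) = true
      rw [ha0]; exact decide_eq_true hiW
  have hV0o : @IsOpen (MM dat) inferInstance V0 := by rw [hV0]; exact hVo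
  have hVs : Vs a = V0 := by
    apply Set.Subset.antisymm
    · apply Set.iUnion₂_subset
      intro i hi
      have : a (2 * i + 1) = true := hi
      rw [ha1] at this
      exact of_decide_eq_true this
    · intro x hx
      obtain ⟨i, hxi, hiW⟩ := hE dat _ hV0o x hx
      refine Set.mem_iUnion₂.2 ⟨i, ?_, hxi⟩
      show a (2 * i + 1) = true
      rw [ha1]; exact decide_eq_true hiW
  by_cases h : ∃ D, good a D
  · have hd : dat a = some h.choose := by simp only [dat, dif_pos h]
    refine hErd dat a h.choose hd _ ?_ hP1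
    intro z hz
    have := h.choose_spec z hz
    rw [hUs, hVs] at this
    intro hmem
    rw [hV0] at this
    rcases hmem with hmem | hmem
    · exact this.1 hmem
    · exact this.2 hmem
  · have hd : dat a = none := by simp only [dat, dif_neg h]
    obtain ⟨D, hD⟩ := hSel dat a hd W (closure W)ᶜ hW hVo hdis
      (fun y hy => hAW hy) (fun y hy hc => absurd (hWO hc) (not_lt.2 hy)) hP1
    exact h ⟨D, fun z hz => by rw [hUs, hVs, hV0]; exact hD z hz⟩

/-- The negation of the frozen statement S14231 from the module statements. -/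
theorem main_of (hDT3 : DT3Stmt) (hDM1 : DM1Stmt) (hDCov : DCovStmt) (hDInd : DIndStmt)
    (hTT3 : TT3Stmt) (hQBM : QBMStmt) (hDim : DimStmt) (hFin : FinStmt) :
    ¬ (∀ (X : Type) [TopologicalSpace X] [T3Space X],
    (∃ B : ℕ → Set (Set X), TopologicalSpace.IsTopologicalBasis (⋃ n, B n) ∧
      ∀ n, ∀ F ⊆ B n, closure (⋃₀ F) = ⋃ U ∈ F, closure U) →
    ∀ n : ℕ,
      ((∀ (k : ℕ) (U : Fin k → Set X), (∀ i, IsOpen (U i)) → (⋃ i, U i) = Set.univ →
          ∃ (m : ℕ) (V : Fin m → Set X), (∀ j, IsOpen (V j)) ∧ (⋃ j, V j) = Set.univ ∧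
            (∀ j, ∃ i, V j ⊆ U i) ∧ ∀ x : X, {j : Fin m | x ∈ V j}.ncard ≤ n + 1) ↔
        Nat.rec (motive := fun _ => Set X → Prop) (fun S => S = ∅)
          (fun (_ : ℕ) (P : Set X → Prop) (S : Set X) =>
            ∀ A O : Set X, IsClosed A → IsOpen O → A ∩ S ⊆ O →
              ∃ W : Set X, IsOpen W ∧ A ∩ S ⊆ W ∩ S ∧ closure (W ∩ S) ∩ S ⊆ O ∧
                P {x : X | x ∈ closure (W ∩ S) ∧ x ∈ S ∧ x ∉ W})
          (n + 1) Set.univ)) := by
  intro H
  obtain ⟨dat, hP⟩ := hFin
  haveI : T3Space (MM dat) := hTT3 dat Set.univ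
  haveI : T3Space (Dbl (MM dat)) := hDT3 (MM dat)
  have h1 := (H (Dbl (MM dat)) (hDM1 (MM dat) (hQBM dat)) 1).1 (hDCov (MM dat) (hDim dat))
  exact hP (hDInd (MM dat) h1)

/-- DFOUR from Z0B, SUM and TWO. -/
theorem dfour_of (hZ : Z0BStmt) (hS : SumStmt) (hT : TwoStmt) : DFourStmt := by
  intro X _ _ _ Fs hcl hclb hW
  letI := TopologicalSpace.metrizableSpaceMetric X
  refine hT X (⋃ i, Fs i) (⋃ i, Fs i)ᶜ (Set.union_compl_self _) ?_ ?_
  · refine hS (⋃ i, Fs i : Set X) (fun i => Subtype.val ⁻¹' (Fs i))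
      (fun i => (hcl i).preimage continuous_subtype_val) ?_ ?_
    · ext x
      obtain ⟨x, hx⟩ := x
      simpa using hx
    · intro i
      refine hZ _ ?_
      intro x U hU hx
      -- transport of a clopen base along the homeomorphism of the subspaces
      let g : (Subtype.val ⁻¹' (Fs i) : Set (⋃ i, Fs i : Set X)) → Fs i := fun y => ⟨y.1.1, y.2⟩
      have hg : Topology.IsInducing g := by
        have h1 : Topology.IsInducing (fun y : (Subtype.val ⁻¹' (Fs i) : Set (⋃ i, Fs i : Set X)) => y.1.1) :=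
          Topology.IsInducing.subtypeVal.comp Topology.IsInducing.subtypeVal
        exact Topology.IsInducing.of_comp (by fun_prop) continuous_subtype_val h1
      obtain ⟨U', hU', rfl⟩ := hg.isOpen_iff.1 hU
      obtain ⟨C, hC, hxC, hCU⟩ := hclb i (g x) U' hU' hx
      exact ⟨g ⁻¹' C, hC.preimage hg.continuous, hxC, Set.preimage_mono hCU⟩
  · refine hZ _ ?_
    intro x U hU hx
    obtain ⟨U', hU', rfl⟩ := isOpen_induced_iff.1 hU
    obtain ⟨W, hWo, hxW, hWU, hfr⟩ := hW x.1 x.2 U' hU' hx
    refine ⟨Subtype.val ⁻¹' W, ⟨?_, hWo.preimage continuous_subtype_val⟩, hxW, Set.preimage_mono hWU⟩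
    have : (Subtype.val ⁻¹' W : Set ((⋃ i, Fs i)ᶜ : Set X)) = Subtype.val ⁻¹' (closure W) := by
      ext y
      constructor
      · intro hy; exact subset_closure hy
      · intro hy
        by_contra hn
        have : y.1 ∈ frontier W := by
          rw [hWo.frontier_eq]; exact ⟨hy, hn⟩
        exact y.2 (hfr this)
    rw [this]
    exact isClosed_closure.preimage continuous_subtype_val

end Pool.Agent.DMI
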