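import Pool.Agent.Helper94_DMI.Stmts

/-!
Squad DMI: the two halves DIMS_A, DIMS_B of module DIMS. Plan: /team-store/PLAN_DMI.md
-/

set_option autoImplicit false

namespace Pool.Agent.DMI

open Set Topology TopologicalSpace Filter

/-- DIMS_A: the closed pieces. (deps NB TOP LCONT) -/
def DimsAStmt : Prop :=
  ∀ (dat : A → Option Dat) (S : Set A),
    (∀ q : ℝ, (∀ a ∈ S, ∀ D, dat a = some D → ∀ z, D.l z ≠ q) →
      @IsClosed (MT dat S) inferInstance {y : M | y.1 = q} ∧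
        ClB ({y : M | y.1 = q} : Set (MT dat S))) ∧
    (∀ a ∈ S, ∀ D, dat a = some D → ∀ r : ℝ,
      @IsClosed (MT dat S) inferInstance {y : M | y ∈ Gr D a ∧ f D a y = r} ∧
        ClB ({y : M | y ∈ Gr D a ∧ f D a y = r} : Set (MT dat S)))

/-- the union of the pieces -/
def Pc (dat : A → Option Dat) (S : Set A) (Q : Set ℝ) : Set M :=
  {y : M | y.1 ∈ Q ∨ ∃ a ∈ S, ∃ D, dat a = some D ∧ y ∈ Gr D a ∧ ∃ r : ℚ, f D a y = (r : ℝ)}

/-- DIMS_B: small open sets with boundary in the pieces. (deps NB RBOX WSET TOP) -/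
def DimsBStmt : Prop :=
  ∀ (dat : A → Option Dat) (S : Set A) (Q : Set ℝ), Dense Q →
    (∀ q ∈ Q, ∀ a ∈ S, ∀ D, dat a = some D → ∀ z, D.l z ≠ q) →
    ∀ x : M, x ∉ Pc dat S Q → ∀ U : Set M, @IsOpen (MT dat S) inferInstance U → x ∈ U →
      ∃ W : Set M, @IsOpen (MT dat S) inferInstance W ∧ x ∈ W ∧ W ⊆ U ∧
        @frontier (MT dat S) inferInstance W ⊆ Pc dat S Q

end Pool.Agent.DMI
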